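import Pool.Graph.R_pool_sql_team_seeded_63374d34.N397.AV.Ell2

/-!
# Exact large deviations of weighted sums of independent local functions: complex moments

`F X` is a sequence of finite families, `f p` a local function for every prime `p`, of size `O(p^{-1/2})`; the
exponential moments `L p z` of the local functions are `1 + α_p z + β_p z² + O(p^{-3/2})`.
-/

set_option autoImplicit false

namespace Pool.Agent.KS6_59.ELD

open Filter Topology Finset
open Pool.Agent.X278.AV Pool.Agent.X278.OP Pool.Agent.N397.AV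
open Pool.Agent.W189.ML (om om_nonneg)

/-- dominated convergence for products -/
theorem tprod_tendsto {P ι : Type} {l : Filter ι} {u : ι → P → ℂ} {v : P → ℂ} {b : P → ℝ} (hb : Summable b)
    (hlim : ∀ p, Tendsto (fun i => u i p) l (𝓝 (v p))) (hbd : ∀ᶠ i in l, ∀ p, ‖u i p‖ ≤ b p)
    (hv : ∀ p, ‖v p‖ ≤ b p) : Tendsto (fun i => ∏' p, (1 + u i p)) l (𝓝 (∏' p, (1 + v p))) := by
  have hb0 : ∀ p, 0 ≤ b p := fun p => (norm_nonneg _).trans (hv p)
  have hB := summable_finsetProd_of_summable_nonneg hb0 hb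
  have he : Summable fun p => ‖v p‖ := Summable.of_nonneg_of_le (fun _ => norm_nonneg _) hv hb
  rw [tprod_one_add (summable_finsetProd_of_summable_norm he)]
  have h1 : ∀ᶠ i in l, ∑' I : Finset P, ∏ p ∈ I, u i p = ∏' p, (1 + u i p) := by
    filter_upwards [hbd] with i hi
    exact (tprod_one_add (summable_finsetProd_of_summable_norm
      (Summable.of_nonneg_of_le (fun _ => norm_nonneg _) hi hb))).symm
  refine Tendsto.congr' h1 ?_
  refine tendsto_tsum_of_dominated_convergence hB (fun I => tendsto_finsetProd _ fun p _ => hlim p) ?_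
  filter_upwards [hbd] with i hi I
  refine (Finset.norm_prod_le _ _).trans ?_
  exact Finset.prod_le_prod (fun p _ => norm_nonneg _) fun p _ => hi p

/-- independent local functions with exponential moments -/
structure Loc {ι : Type} (F : ℕ → Finset ι) (f : Nat.Primes → ι → ℝ) (L : Nat.Primes → ℂ → ℂ) (α β : Nat.Primes → ℝ)
    (B : ℝ) : Prop where
  ne : ∀ᶠ X in atTop, (F X).Nonempty
  B0 : 0 ≤ B
  size : ∀ p X, ∀ i ∈ F X, |f p i| ≤ B / √((p : ℕ) : ℝ)
  cont : ∀ p, Continuous (L p)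
  ind : ∀ (z : Nat.Primes → ℂ) (I : Finset Nat.Primes), Tendsto (fun X => meanC (F X) (fun i =>
    ∏ p ∈ I, (Complex.exp (z p * f p i) - 1))) atTop (𝓝 (∏ p ∈ I, (L p (z p) - 1)))
  exp : ∀ K : ℝ, ∃ C : ℝ, 0 ≤ C ∧ ∀ (p : Nat.Primes) (z : ℂ), ‖z‖ ≤ K →
    ‖L p z - 1 - (α p * z + β p * z ^ 2)‖ ≤ C * ((√((p : ℕ) : ℝ))⁻¹) ^ 3
  ab : ∃ C : ℝ, 0 ≤ C ∧ ∀ p : Nat.Primes, |α p| ≤ C * ((√((p : ℕ) : ℝ))⁻¹) ^ 2 ∧
    |β p| ≤ C * ((√((p : ℕ) : ℝ))⁻¹) ^ 2

variable {ι : Type} {F : ℕ → Finset ι} {f : Nat.Primes → ι → ℝ} {L : Nat.Primes → ℂ → ℂ} {α β : Nat.Primes → ℝ} {B : ℝ}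

/-- the weighted sum -/
noncomputable def Sm (f : Nat.Primes → ι → ℝ) (γ T : ℝ) (i : ι) : ℝ :=
  ∑' p : Nat.Primes, wr γ (Real.log (p : ℕ) / T) * f p i

/-- the moments -/
noncomputable def Mz (L : Nat.Primes → ℂ → ℂ) (γ T : ℝ) (z : ℂ) : ℂ :=
  ∏' p : Nat.Primes, L p (z * (wr γ (Real.log (p : ℕ) / T) : ℝ))

theorem up {T : ℝ} (hT : 0 < T) (p : Nat.Primes) : 0 ≤ Real.log (p : ℕ) / T :=
  div_nonneg (Real.log_nonneg (by exact_mod_cast p.2.one_le)) hT.le

theorem Sm_sum (D : Loc F f L α β B) {X : ℕ} {i : ι} (hi : i ∈ F X) (γ : ℝ) {T : ℝ} (hT : 0 < T) :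
    Summable fun p : Nat.Primes => |wr γ (Real.log (p : ℕ) / T) * f p i| := by
  refine Summable.of_nonneg_of_le (fun _ => abs_nonneg _) (fun p => ?_) (wt_sum (γ := γ) hT (B := B) D.B0)
  rw [abs_mul, norm_Wt γ (up hT p)]
  have h1 := wr_le γ (up hT p)
  have h2 := D.size p X i hi
  have h4 := om_nonneg (up hT p)
  calc _ ≤ om (Real.log (p : ℕ) / T) * (B / √((p : ℕ) : ℝ)) := by gcongr
    _ = _ := by ring

/-- **the complex moments for fixed `T`** -/
theorem mean_lim (D : Loc F f L α β B) (γ : ℝ) {T : ℝ} (hT : 0 < T) (z : ℂ) :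
    Tendsto (fun X => meanC (F X) (fun i => Complex.exp (z * Sm f γ T i))) atTop (𝓝 (Mz L γ T z)) := by
  classical
  set x : Nat.Primes → ℂ := fun p => z * (wr γ (Real.log (p : ℕ) / T) : ℝ) with hx
  set K : ℝ := ‖z‖ * (Real.exp 1 + 1) with hK
  have hK0 : 0 ≤ K := by positivity
  have hB0 := D.B0
  have hxK : ∀ p, ‖x p‖ ≤ K := by
    intro p
    show ‖z * (wr γ (Real.log (p : ℕ) / T) : ℝ)‖ ≤ ‖z‖ * (Real.exp 1 + 1)
    rw [norm_mul, Complex.norm_real, Real.norm_eq_abs]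
    exact mul_le_mul_of_nonneg_left (wr_bd γ (up hT p)) (norm_nonneg z)
  set Bp : Nat.Primes → ℝ := fun p => B * Real.exp (K * B) * (√((p : ℕ) : ℝ))⁻¹ * ‖x p‖ with hBp
  have hBs : Summable Bp := by
    refine Summable.of_nonneg_of_le (fun p => by positivity) (fun p => ?_)
      (wt_sum (γ := γ) hT (B := B * Real.exp (K * B) * ‖z‖) (by positivity))
    rw [norm_Wt γ (up hT p)]
    have h1 := wr_le γ (up hT p)
    have h2 : ‖x p‖ ≤ ‖z‖ * om (Real.log (p : ℕ) / T) := by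
      show ‖z * (wr γ (Real.log (p : ℕ) / T) : ℝ)‖ ≤ _
      rw [norm_mul, Complex.norm_real, Real.norm_eq_abs]
      gcongr
    calc B * Real.exp (K * B) * (√((p : ℕ) : ℝ))⁻¹ * ‖x p‖
        ≤ B * Real.exp (K * B) * (√((p : ℕ) : ℝ))⁻¹ * (‖z‖ * om (Real.log (p : ℕ) / T)) := by gcongr
      _ = _ := by rw [div_eq_mul_inv]; ring
  have hgB : ∀ (p : Nat.Primes) (X : ℕ), ∀ i ∈ F X, ‖Complex.exp (x p * f p i) - 1‖ ≤ Bp p := by
    intro p X i hi
    obtain ⟨d0, d1⟩ := delta p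
    have g0 := D.size p X i hi
    rw [div_eq_mul_inv] at g0
    have g1 : ‖x p * f p i‖ ≤ ‖x p‖ * (B * (√((p : ℕ) : ℝ))⁻¹) := by
      rw [norm_mul, Complex.norm_real, Real.norm_eq_abs]
      gcongr
    have g2 : ‖x p * f p i‖ ≤ K * B := by
      refine g1.trans (mul_le_mul (hxK p) ?_ (by positivity) hK0)
      nlinarith
    have g3 := Complex.norm_exp_sub_sum_le_norm_mul_exp (x p * f p i) 1
    rw [Finset.sum_range_one, pow_zero, Nat.factorial_zero, Nat.cast_one, div_one, pow_one] at g3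
    refine g3.trans ?_
    calc ‖x p * f p i‖ * Real.exp ‖x p * f p i‖ ≤ (‖x p‖ * (B * (√((p : ℕ) : ℝ))⁻¹)) * Real.exp (K * B) := by
          gcongr
      _ = _ := by rw [hBp]; ring
  have DI : Ind F (fun p i => Complex.exp (x p * f p i) - 1) Bp (fun p => L p (x p) - 1) :=
    ⟨hgB, fun I => D.ind x I, D.ne⟩
  have h3 := DI.prod hBs
  have e3 : ∏' p : Nat.Primes, ((1 : ℂ) + (L p (x p) - 1)) = Mz L γ T z := by
    unfold Mz
    refine tprod_congr fun p => ?_
    rw [add_sub_cancel]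
  rw [e3] at h3
  refine h3.congr fun X => ?_
  unfold meanC
  congr 1
  refine Finset.sum_congr rfl fun i hi => ?_
  have s1 := (Sm_sum D hi γ hT).of_abs
  have s2 : HasSum (fun p : Nat.Primes => z * ((wr γ (Real.log (p : ℕ) / T) * f p i : ℝ) : ℂ)) (z * (Sm f γ T i : ℝ)) := by
    refine HasSum.mul_left z ?_
    exact Complex.hasSum_ofReal.2 s1.hasSum
  have s3 := s2.cexp
  simp only
  rw [← s3.tprod_eq]
  refine tprod_congr fun p => ?_
  rw [add_sub_cancel]
  simp only [Function.comp_apply, hx]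
  congr 1
  push_cast
  ring

end Pool.Agent.KS6_59.ELD
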