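import Pool.Agent.KS6_59.ELD.Abs

/-!
# Exact large deviations: the moments, locally uniformly in the exponent
-/

set_option autoImplicit false

namespace Pool.Agent.KS6_59.ELD

open Filter Topology Finset
open Pool.Agent.X278.AV Pool.Agent.X278.OP Pool.Agent.N397.AV
open Pool.Agent.W189.ML (om om_nonneg)

variable {ι : Type} {F : ℕ → Finset ι} {f : Nat.Primes → ι → ℝ} {L : Nat.Primes → ℂ → ℂ} {α β : Nat.Primes → ℝ} {B : ℝ}

theorem sum_de3 (C : ℝ) : Summable fun p : Nat.Primes => C * ((√((p : ℕ) : ℝ))⁻¹) ^ 3 := by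
  refine (sum_32 (C := C)).congr fun p => ?_
  have hp0 : (0 : ℝ) < (p : ℕ) := by exact_mod_cast p.2.pos
  obtain ⟨-, -, d2⟩ := de_facts p
  have : ((√((p : ℕ) : ℝ))⁻¹) ^ 3 = (√((p : ℕ) : ℝ))⁻¹ * ((√((p : ℕ) : ℝ))⁻¹) ^ 2 := by ring
  rw [this, d2]
  have h1 : 0 < √((p : ℕ) : ℝ) := Real.sqrt_pos.2 hp0
  field_simp

/-- the corrected factor -/
noncomputable def cf (L : Nat.Primes → ℂ → ℂ) (α β : Nat.Primes → ℝ) (p : Nat.Primes) (z : ℂ) : ℂ :=
  L p z * Complex.exp (-(α p * z + β p * z ^ 2))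

theorem cf_bd (D : Loc F f L α β B) (K : ℝ) : ∃ C : ℝ, 0 ≤ C ∧ ∀ (p : Nat.Primes) (z : ℂ), ‖z‖ ≤ K →
    ‖cf L α β p z - 1‖ ≤ C * ((√((p : ℕ) : ℝ))⁻¹) ^ 3 := by
  rcases lt_or_ge K 0 with hK | hK
  · exact ⟨0, le_rfl, fun p z hz => absurd ((norm_nonneg z).trans hz) (not_le.2 hK)⟩
  obtain ⟨C, hC0, hC⟩ := D.exp K
  obtain ⟨A, hA0, hA⟩ := D.ab
  set E : ℝ := A * (K + K ^ 2) with hE
  have hE0 : 0 ≤ E := by positivity
  refine ⟨(1 + C + E) * (E ^ 2 * Real.exp E) + C + (C + E) * E, by positivity, fun p z hz => ?_⟩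
  obtain ⟨d0, d1, d2⟩ := de_facts p
  set δ : ℝ := (√((p : ℕ) : ℝ))⁻¹ with hδ
  have h1 := hC p z hz
  obtain ⟨hα, hβ⟩ := hA p
  set q : ℂ := α p * z + β p * z ^ 2 with hq
  set y : ℂ := L p z - 1 with hy
  have hz0 := norm_nonneg z
  have hq1 : ‖q‖ ≤ E * δ ^ 2 := by
    rw [hq]
    refine (norm_add_le _ _).trans ?_
    rw [norm_mul, norm_mul, Complex.norm_real, Complex.norm_real, Real.norm_eq_abs, Real.norm_eq_abs, norm_pow]
    calc |α p| * ‖z‖ + |β p| * ‖z‖ ^ 2 ≤ (A * δ ^ 2) * K + (A * δ ^ 2) * K ^ 2 := by gcongr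
      _ = E * δ ^ 2 := by rw [hE]; ring
  have hδ1 : δ ^ 2 ≤ 1 := by nlinarith
  have hδ3 : δ ^ 3 ≤ δ ^ 2 := pow_le_pow_of_le_one d0.le (by linarith) (by norm_num)
  have hδ4 : δ ^ 4 ≤ δ ^ 3 := pow_le_pow_of_le_one d0.le (by linarith) (by norm_num)
  have hqE : ‖q‖ ≤ E := hq1.trans (by nlinarith)
  have hy1 : ‖y‖ ≤ (C + E) * δ ^ 2 := by
    have e1 : y = (y - q) + q := by ring
    rw [e1]
    refine (norm_add_le _ _).trans ((add_le_add h1 hq1).trans ?_)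
    nlinarith
  have hy2 : ‖y‖ ≤ C + E := hy1.trans (by nlinarith)
  have g1 : ‖Complex.exp (-q) - 1 + q‖ ≤ E ^ 2 * Real.exp E * δ ^ 4 := by
    have g3 := Complex.norm_exp_sub_sum_le_norm_mul_exp (-q) 2
    have e2 : Complex.exp (-q) - ∑ m ∈ range 2, (-q) ^ m / (m.factorial : ℂ) = Complex.exp (-q) - 1 + q := by
      simp only [Finset.sum_range_succ, Finset.sum_range_zero, Nat.factorial]
      push_cast
      ring
    rw [e2, norm_neg] at g3
    refine g3.trans ?_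
    calc ‖q‖ ^ 2 * Real.exp ‖q‖ ≤ (E * δ ^ 2) ^ 2 * Real.exp E := by gcongr
      _ = _ := by ring
  have e3 : cf L α β p z - 1 = (1 + y) * (Complex.exp (-q) - 1 + q) + (y - q) - y * q := by
    unfold cf
    rw [hy]
    ring
  rw [e3]
  have h1y : ‖1 + y‖ ≤ 1 + C + E := by
    refine (norm_add_le _ _).trans ?_
    rw [norm_one]
    linarith
  calc ‖(1 + y) * (Complex.exp (-q) - 1 + q) + (y - q) - y * q‖
      ≤ ‖1 + y‖ * ‖Complex.exp (-q) - 1 + q‖ + ‖y - q‖ + ‖y‖ * ‖q‖ := by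
        refine (norm_sub_le _ _).trans ?_
        rw [norm_mul y q]
        refine add_le_add ((norm_add_le _ _).trans ?_) le_rfl
        rw [norm_mul]
    _ ≤ (1 + C + E) * (E ^ 2 * Real.exp E * δ ^ 4) + C * δ ^ 3 + ((C + E) * δ ^ 2) * (E * δ ^ 2) := by
        gcongr
    _ = (1 + C + E) * (E ^ 2 * Real.exp E) * δ ^ 4 + C * δ ^ 3 + (C + E) * E * δ ^ 4 := by ring
    _ ≤ (1 + C + E) * (E ^ 2 * Real.exp E) * δ ^ 3 + C * δ ^ 3 + (C + E) * E * δ ^ 3 := by gcongr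
    _ = _ := by ring

theorem cf_cont (D : Loc F f L α β B) (p : Nat.Primes) : Continuous (cf L α β p) := by
  have := D.cont p
  unfold cf
  fun_prop

/-- the sums of the coefficients against the weights -/
structure Wts (α β : Nat.Primes → ℝ) (γ A Q c₁ c₂ : ℝ) : Prop where
  s1 : ∀ T : ℝ, 0 < T → Summable fun p : Nat.Primes => α p * wr γ (Real.log (p : ℕ) / T)
  s2 : ∀ T : ℝ, 0 < T → Summable fun p : Nat.Primes => β p * wr γ (Real.log (p : ℕ) / T) ^ 2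
  l1 : Tendsto (fun T : ℝ => ∑' p : Nat.Primes, α p * wr γ (Real.log (p : ℕ) / T) - A * Real.log T) atTop (𝓝 c₁)
  l2 : Tendsto (fun T : ℝ => ∑' p : Nat.Primes, β p * wr γ (Real.log (p : ℕ) / T) ^ 2 - Q * Real.log T) atTop (𝓝 c₂)

/-- the limit function -/
noncomputable def Gf (L : Nat.Primes → ℂ → ℂ) (α β : Nat.Primes → ℝ) (c₁ c₂ : ℝ) (z : ℂ) : ℂ :=
  (∏' p : Nat.Primes, cf L α β p z) * Complex.exp (c₁ * z + c₂ * z ^ 2)

variable {γ A Q c₁ c₂ : ℝ}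

theorem Mz_eq (D : Loc F f L α β B) (W : Wts α β γ A Q c₁ c₂) {T : ℝ} (hT : 0 < T) (z : ℂ) :
    Mz L γ T z = (∏' p : Nat.Primes, cf L α β p (z * (wr γ (Real.log (p : ℕ) / T) : ℝ))) *
      Complex.exp (z * ((∑' p : Nat.Primes, α p * wr γ (Real.log (p : ℕ) / T) : ℝ) : ℂ) +
        z ^ 2 * ((∑' p : Nat.Primes, β p * wr γ (Real.log (p : ℕ) / T) ^ 2 : ℝ) : ℂ)) := by
  obtain ⟨C, hC0, hC⟩ := cf_bd D (‖z‖ * (Real.exp 1 + 1))
  have hzw : ∀ p : Nat.Primes, ‖z * (wr γ (Real.log (p : ℕ) / T) : ℝ)‖ ≤ ‖z‖ * (Real.exp 1 + 1) := by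
    intro p
    rw [norm_mul, Complex.norm_real, Real.norm_eq_abs]
    exact mul_le_mul_of_nonneg_left (wr_bd γ (up hT p)) (norm_nonneg z)
  have h1 : Multipliable fun p : Nat.Primes => cf L α β p (z * (wr γ (Real.log (p : ℕ) / T) : ℝ)) := by
    have h2 : Summable fun p : Nat.Primes => ‖cf L α β p (z * (wr γ (Real.log (p : ℕ) / T) : ℝ)) - 1‖ :=
      Summable.of_nonneg_of_le (fun _ => norm_nonneg _) (fun p => hC p _ (hzw p)) (sum_de3 C)
    have h3 := multipliable_one_add_of_summable h2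
    refine h3.congr fun p => ?_
    rw [add_sub_cancel]
  have s1 : HasSum (fun p : Nat.Primes => z * ((α p * wr γ (Real.log (p : ℕ) / T) : ℝ) : ℂ) +
      z ^ 2 * ((β p * wr γ (Real.log (p : ℕ) / T) ^ 2 : ℝ) : ℂ)) (z * ((∑' p : Nat.Primes, α p * wr γ (Real.log (p : ℕ) / T) : ℝ) : ℂ) +
        z ^ 2 * ((∑' p : Nat.Primes, β p * wr γ (Real.log (p : ℕ) / T) ^ 2 : ℝ) : ℂ)) :=
    ((Complex.hasSum_ofReal.2 (W.s1 T hT).hasSum).mul_left z).add
      ((Complex.hasSum_ofReal.2 (W.s2 T hT).hasSum).mul_left (z ^ 2))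
  have h4 := h1.hasProd.mul s1.cexp
  unfold Mz
  rw [← h4.tprod_eq]
  refine tprod_congr fun p => ?_
  simp only [Function.comp_apply]
  unfold cf
  rw [mul_assoc, ← Complex.exp_add]
  have : -((α p : ℂ) * (z * (wr γ (Real.log (p : ℕ) / T) : ℝ)) + β p * (z * (wr γ (Real.log (p : ℕ) / T) : ℝ)) ^ 2) +
      (z * ((α p * wr γ (Real.log (p : ℕ) / T) : ℝ) : ℂ) + z ^ 2 * ((β p * wr γ (Real.log (p : ℕ) / T) ^ 2 : ℝ) : ℂ)) = 0 := by
    push_cast
    ring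
  rw [this, Complex.exp_zero, mul_one]

theorem Gf_cont (D : Loc F f L α β B) (c₁ c₂ : ℝ) : Continuous (Gf L α β c₁ c₂) := by
  unfold Gf
  refine Continuous.mul ?_ (by fun_prop)
  rw [continuous_iff_continuousAt]
  intro z₀
  obtain ⟨C, hC0, hC⟩ := cf_bd D (‖z₀‖ + 1)
  have h1 := tprod_tendsto (l := 𝓝 z₀) (u := fun z p => cf L α β p z - 1) (v := fun p => cf L α β p z₀ - 1)
    (sum_de3 C) (fun p => ((cf_cont D p).tendsto z₀).sub_const 1) ?_ (fun p => hC p z₀ (by linarith))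
  · simp only [add_sub_cancel] at h1
    exact h1
  · have h2 : ∀ᶠ z in 𝓝 z₀, ‖z‖ < ‖z₀‖ + 1 := (continuous_norm.tendsto z₀).eventually_lt_const (by linarith)
    filter_upwards [h2] with z hz p
    exact hC p z hz.le

/-- **the moments as `T → ∞`, locally uniformly** -/
theorem asym (D : Loc F f L α β B) (W : Wts α β γ A Q c₁ c₂) (z₀ : ℂ) :
    Tendsto (fun q : ℝ × ℂ => Mz L γ q.1 q.2 * Complex.exp (-((A * q.2 + Q * q.2 ^ 2) * Real.log q.1)))
      (atTop ×ˢ 𝓝 z₀) (𝓝 (Gf L α β c₁ c₂ z₀)) := by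
  obtain ⟨C, hC0, hC⟩ := cf_bd D ((‖z₀‖ + 1) * (Real.exp 1 + 1))
  have hE : 0 < Real.exp 1 := Real.exp_pos 1
  have hz : ∀ᶠ q : ℝ × ℂ in atTop ×ˢ 𝓝 z₀, ‖q.2‖ < ‖z₀‖ + 1 := by
    have h2 : ∀ᶠ z in 𝓝 z₀, ‖z‖ < ‖z₀‖ + 1 := (continuous_norm.tendsto z₀).eventually_lt_const (by linarith)
    exact tendsto_snd.eventually h2
  have hT : ∀ᶠ q : ℝ × ℂ in atTop ×ˢ 𝓝 z₀, 0 < q.1 := tendsto_fst.eventually (eventually_gt_atTop (0 : ℝ))
  have h1 := tprod_tendsto (l := atTop ×ˢ 𝓝 z₀)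
    (u := fun (q : ℝ × ℂ) p => cf L α β p (q.2 * (wr γ (Real.log (p : ℕ) / q.1) : ℝ)) - 1)
    (v := fun p => cf L α β p z₀ - 1) (sum_de3 C) (fun p => ?_) ?_ (fun p => hC p z₀ ?_)
  · simp only [add_sub_cancel] at h1
    have t1 : Tendsto (fun q : ℝ × ℂ => (((∑' p : Nat.Primes, α p * wr γ (Real.log (p : ℕ) / q.1)) - A * Real.log q.1 : ℝ) : ℂ))
        (atTop ×ˢ 𝓝 z₀) (𝓝 (c₁ : ℂ)) :=
      ((Complex.continuous_ofReal.tendsto _).comp W.l1).comp tendsto_fst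
    have t2 : Tendsto (fun q : ℝ × ℂ => (((∑' p : Nat.Primes, β p * wr γ (Real.log (p : ℕ) / q.1) ^ 2) - Q * Real.log q.1 : ℝ) : ℂ))
        (atTop ×ˢ 𝓝 z₀) (𝓝 (c₂ : ℂ)) :=
      ((Complex.continuous_ofReal.tendsto _).comp W.l2).comp tendsto_fst
    have t3 : Tendsto (fun q : ℝ × ℂ => q.2) (atTop ×ˢ 𝓝 z₀) (𝓝 z₀) := tendsto_snd
    have t4 := (Complex.continuous_exp.tendsto _).comp ((t1.mul t3).add (t2.mul (t3.pow 2)))
    have t5 := h1.mul t4
    refine t5.congr' ?_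
    filter_upwards [hT] with q hq
    rw [Mz_eq D W hq]
    simp only [Function.comp_apply]
    rw [mul_assoc, ← Complex.exp_add]
    congr 2
    push_cast
    ring
  · have t1 : Tendsto (fun T : ℝ => Real.log (p : ℕ) / T) atTop (𝓝 0) := tendsto_const_nhds.div_atTop tendsto_id
    have t2 : Tendsto (fun T : ℝ => wr γ (Real.log (p : ℕ) / T)) atTop (𝓝 1) := by
      have h3 := ((wr_diff γ le_rfl).continuousAt.tendsto.comp t1)
      rw [wr_zero] at h3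
      exact h3
    have t3 : Tendsto (fun q : ℝ × ℂ => q.2 * (wr γ (Real.log (p : ℕ) / q.1) : ℝ)) (atTop ×ˢ 𝓝 z₀) (𝓝 (z₀ * (1 : ℝ))) :=
      tendsto_snd.mul (((Complex.continuous_ofReal.tendsto _).comp t2).comp tendsto_fst)
    rw [Complex.ofReal_one, mul_one] at t3
    exact (((cf_cont D p).tendsto z₀).comp t3).sub_const 1
  · filter_upwards [hz, hT] with q hq1 hq2 p
    refine hC p _ ?_
    rw [norm_mul, Complex.norm_real, Real.norm_eq_abs]
    exact mul_le_mul hq1.le (wr_bd γ (up hq2 p)) (abs_nonneg _) (by positivity)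
  · have h0 := norm_nonneg z₀
    nlinarith

/-- locally uniform convergence on compact sets -/
theorem unif_of_tendsto {κ : Type} {l : Filter κ} {φ : κ → ℝ → ℂ} {ψ : ℝ → ℂ} (hψ : Continuous ψ)
    (h : ∀ ξ : ℝ, Tendsto (fun q : κ × ℝ => φ q.1 q.2) (l ×ˢ 𝓝 ξ) (𝓝 (ψ ξ))) (R : ℝ) {ε : ℝ} (hε : 0 < ε) :
    ∀ᶠ i in l, ∀ ξ : ℝ, |ξ| ≤ R → ‖φ i ξ - ψ ξ‖ ≤ ε := by
  have h1 : TendstoLocallyUniformlyOn φ ψ l (Set.Icc (-R) R) := by
    refine TendstoLocallyUniformly.tendstoLocallyUniformlyOn ?_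
    rw [tendstoLocallyUniformly_iff_forall_tendsto]
    intro ξ
    rw [Metric.uniformity_basis_dist.tendsto_right_iff]
    intro ε' hε'
    have h2 := Metric.tendsto_nhds.1 (h ξ) (ε' / 2) (by positivity)
    have h3 : ∀ᶠ q : κ × ℝ in l ×ˢ 𝓝 ξ, dist (ψ q.2) (ψ ξ) < ε' / 2 :=
      tendsto_snd.eventually (Metric.tendsto_nhds.1 (hψ.tendsto ξ) (ε' / 2) (by positivity))
    filter_upwards [h2, h3] with q h4 h5
    have h6 := dist_triangle_right (ψ q.2) (φ q.1 q.2) (ψ ξ)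
    show dist (ψ q.2) (φ q.1 q.2) < ε'
    linarith
  rw [tendstoLocallyUniformlyOn_iff_tendstoUniformlyOn_of_compact isCompact_Icc, Metric.tendstoUniformlyOn_iff] at h1
  filter_upwards [h1 ε hε] with i hi ξ hξ
  have := hi ξ (Set.mem_Icc.2 (abs_le.1 hξ))
  rw [dist_eq_norm, norm_sub_rev] at this
  exact this.le

/-- **the moments as `T → ∞`, uniformly on segments of vertical lines** -/
theorem asym_unif (D : Loc F f L α β B) (W : Wts α β γ A Q c₁ c₂) (k R : ℝ) {ε : ℝ} (hε : 0 < ε) :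
    ∀ᶠ T : ℝ in atTop, ∀ ξ : ℝ, |ξ| ≤ R → ‖Mz L γ T (k + ξ * Complex.I) *
      Complex.exp (-((A * (k + ξ * Complex.I) + Q * (k + ξ * Complex.I) ^ 2) * Real.log T)) -
        Gf L α β c₁ c₂ (k + ξ * Complex.I)‖ ≤ ε := by
  refine unif_of_tendsto (φ := fun T ξ => Mz L γ T (k + ξ * Complex.I) *
      Complex.exp (-((A * (k + ξ * Complex.I) + Q * (k + ξ * Complex.I) ^ 2) * Real.log T)))
    (ψ := fun ξ => Gf L α β c₁ c₂ (k + ξ * Complex.I)) ?_ (fun ξ => ?_) R hε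
  · exact (Gf_cont D c₁ c₂).comp (by fun_prop)
  · have h1 : Tendsto (fun q : ℝ × ℝ => (q.1, ((k : ℂ) + q.2 * Complex.I))) (atTop ×ˢ 𝓝 ξ)
        (atTop ×ˢ 𝓝 ((k : ℂ) + ξ * Complex.I)) := by
      refine tendsto_fst.prodMk ?_
      have h2 : Continuous fun x : ℝ => (k : ℂ) + x * Complex.I := by fun_prop
      exact (h2.tendsto ξ).comp tendsto_snd
    have h3 := (asym D W ((k : ℂ) + ξ * Complex.I)).comp h1
    simp only [Function.comp_def] at h3
    exact h3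

theorem exp_abs_le (k S : ℝ) : Real.exp (k * S) * |S| ≤ Real.exp ((k + 1) * S) + Real.exp ((k - 1) * S) := by
  have h1 : |S| ≤ Real.exp S + Real.exp (-S) := by
    rcases abs_cases S with ⟨h, _⟩ | ⟨h, _⟩
    · rw [h]
      have := Real.add_one_le_exp S
      have := Real.exp_pos (-S)
      linarith
    · rw [h]
      have := Real.add_one_le_exp (-S)
      have := Real.exp_pos S
      linarith
  calc Real.exp (k * S) * |S| ≤ Real.exp (k * S) * (Real.exp S + Real.exp (-S)) := by gcongr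
    _ = _ := by
      rw [mul_add, ← Real.exp_add, ← Real.exp_add]
      congr 2 <;> ring

/-- **the convergence for fixed `T` is uniform on segments of vertical lines** -/
theorem fixed_unif (D : Loc F f L α β B) (γ : ℝ) {T : ℝ} (hT : 0 < T) (k R : ℝ) {ε : ℝ} (hε : 0 < ε) :
    ∀ᶠ X : ℕ in atTop, ∀ ξ : ℝ, |ξ| ≤ R →
      ‖meanC (F X) (fun i => Complex.exp ((k + ξ * Complex.I) * Sm f γ T i)) - Mz L γ T (k + ξ * Complex.I)‖ ≤ ε := by
  set S : ι → ℝ := Sm f γ T with hS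
  -- real moments are bounded
  have hreal : ∀ c : ℝ, ∀ᶠ X : ℕ in atTop, (∑ i ∈ F X, Real.exp (c * S i)) / (F X).card ≤ ‖Mz L γ T (c : ℂ)‖ + 1 := by
    intro c
    have h1 := (mean_lim D γ hT (c : ℂ)).norm.eventually_lt_const (u := ‖Mz L γ T (c : ℂ)‖ + 1) (by linarith)
    filter_upwards [h1] with X hX
    have e1 : meanC (F X) (fun i => Complex.exp ((c : ℂ) * Sm f γ T i)) =
        (((∑ i ∈ F X, Real.exp (c * S i)) / (F X).card : ℝ) : ℂ) := by
      unfold meanC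
      push_cast
      rfl
    rw [e1, Complex.norm_real, Real.norm_of_nonneg (by positivity)] at hX
    exact hX.le
  set D₀ : ℝ := (‖Mz L γ T ((k + 1 : ℝ) : ℂ)‖ + 1) + (‖Mz L γ T ((k - 1 : ℝ) : ℂ)‖ + 1) with hD₀
  have hlip : ∀ᶠ X : ℕ in atTop, ∀ ξ ξ' : ℝ,
      ‖meanC (F X) (fun i => Complex.exp ((k + ξ * Complex.I) * Sm f γ T i)) -
        meanC (F X) (fun i => Complex.exp ((k + ξ' * Complex.I) * Sm f γ T i))‖ ≤ D₀ * |ξ - ξ'| := by
    filter_upwards [hreal (k + 1), hreal (k - 1), D.ne] with X h1 h2 h3 ξ ξ'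
    have hc : (0 : ℝ) < (F X).card := by exact_mod_cast h3.card_pos
    unfold meanC
    rw [← sub_div, ← Finset.sum_sub_distrib, norm_div, Complex.norm_natCast, div_le_iff₀ hc]
    have h4 : ∀ i ∈ F X, ‖Complex.exp ((k + ξ * Complex.I) * Sm f γ T i) - Complex.exp ((k + ξ' * Complex.I) * Sm f γ T i)‖ ≤
        (Real.exp ((k + 1) * S i) + Real.exp ((k - 1) * S i)) * |ξ - ξ'| := by
      intro i _
      have e1 : ∀ x : ℝ, Complex.exp ((k + x * Complex.I) * Sm f γ T i) =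
          (Real.exp (k * S i) : ℂ) * Complex.exp ((x * S i : ℝ) * Complex.I) := by
        intro x
        rw [Complex.ofReal_exp, ← Complex.exp_add]
        congr 1
        push_cast
        ring
      rw [e1, e1, ← mul_sub, norm_mul, Complex.norm_real, Real.norm_of_nonneg (Real.exp_pos _).le]
      have h5 : ‖Complex.exp ((ξ * S i : ℝ) * Complex.I) - Complex.exp ((ξ' * S i : ℝ) * Complex.I)‖ ≤
          |S i| * |ξ - ξ'| := by
        have e2 : Complex.exp ((ξ * S i : ℝ) * Complex.I) - Complex.exp ((ξ' * S i : ℝ) * Complex.I) =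
            Complex.exp ((ξ' * S i : ℝ) * Complex.I) * (Complex.exp (Complex.I * ((ξ - ξ') * S i : ℝ)) - 1) := by
          rw [mul_sub, mul_one, ← Complex.exp_add]
          congr 2
          push_cast
          ring
        rw [e2, norm_mul, Complex.norm_exp_ofReal_mul_I, one_mul]
        refine (Real.norm_exp_I_mul_ofReal_sub_one_le).trans ?_
        rw [Real.norm_eq_abs, abs_mul, mul_comm]
      calc _ ≤ Real.exp (k * S i) * (|S i| * |ξ - ξ'|) := by gcongr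
        _ = (Real.exp (k * S i) * |S i|) * |ξ - ξ'| := by ring
        _ ≤ _ := by
          gcongr
          exact exp_abs_le k (S i)
    refine (norm_sum_le _ _).trans ((Finset.sum_le_sum h4).trans ?_)
    rw [← Finset.sum_mul, Finset.sum_add_distrib]
    rw [div_le_iff₀ hc] at h1 h2
    have h6 : ∑ i ∈ F X, Real.exp ((k + 1) * S i) + ∑ i ∈ F X, Real.exp ((k - 1) * S i) ≤ D₀ * (F X).card := by
      rw [hD₀, add_mul]
      exact add_le_add h1 h2
    calc _ ≤ (D₀ * (F X).card) * |ξ - ξ'| := by gcongr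
      _ = _ := by ring
  have hcont : Continuous fun ξ : ℝ => Mz L γ T (k + ξ * Complex.I) := by
    have h1 : ∀ ξ ξ' : ℝ, ‖Mz L γ T (k + ξ * Complex.I) - Mz L γ T (k + ξ' * Complex.I)‖ ≤ D₀ * |ξ - ξ'| := by
      intro ξ ξ'
      refine le_of_tendsto ((mean_lim D γ hT (k + ξ * Complex.I)).sub (mean_lim D γ hT (k + ξ' * Complex.I))).norm ?_
      filter_upwards [hlip] with X hX
      exact hX ξ ξ'
    have hD0 : 0 ≤ D₀ := by positivity
    refine LipschitzWith.continuous (K := ⟨D₀, hD0⟩) (LipschitzWith.of_dist_le_mul fun ξ ξ' => ?_)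
    rw [dist_eq_norm, Real.dist_eq]
    exact h1 ξ ξ'
  refine unif_of_tendsto (φ := fun X ξ => meanC (F X) (fun i => Complex.exp ((k + ξ * Complex.I) * Sm f γ T i)))
    (ψ := fun ξ => Mz L γ T (k + ξ * Complex.I)) hcont (fun ξ => ?_) R hε
  have h1 : Tendsto (fun q : ℕ × ℝ => meanC (F q.1) (fun i => Complex.exp ((k + ξ * Complex.I) * Sm f γ T i)))
      (atTop ×ˢ 𝓝 ξ) (𝓝 (Mz L γ T (k + ξ * Complex.I))) := (mean_lim D γ hT (k + ξ * Complex.I)).comp tendsto_fst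
  have h2 : Tendsto (fun q : ℕ × ℝ => meanC (F q.1) (fun i => Complex.exp ((k + q.2 * Complex.I) * Sm f γ T i)) -
      meanC (F q.1) (fun i => Complex.exp ((k + ξ * Complex.I) * Sm f γ T i))) (atTop ×ˢ 𝓝 ξ) (𝓝 0) := by
    have h3 : Tendsto (fun q : ℕ × ℝ => D₀ * |q.2 - ξ|) (atTop ×ˢ 𝓝 ξ) (𝓝 0) := by
      have h4 : Continuous fun x : ℝ => D₀ * |x - ξ| := by fun_prop
      have h5 := h4.tendsto ξ
      rw [sub_self, abs_zero, mul_zero] at h5
      exact h5.comp tendsto_snd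
    refine squeeze_zero_norm' ?_ h3
    filter_upwards [tendsto_fst.eventually hlip] with q hq
    exact hq q.2 ξ
  have h3 := h2.add h1
  rw [zero_add] at h3
  refine h3.congr fun q => ?_
  ring

end Pool.Agent.KS6_59.ELD
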