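import Pool.Agent.KS6_59.ELD.Asy

/-!
# Independence of complex local functions over a family of minimal points of boxes
-/

set_option autoImplicit false

namespace Pool.Agent.KS6_59.ELD

open Filter Topology Finset
open Pool.Agent.X278.AV Pool.Agent.X278.OP Pool.Agent.N397.AV

/-- the mean value of a complex local function over the `p`-adic minimal points -/
noncomputable def ExC {k : ℕ} (s p : ℕ) [NeZero p] (g : (Fin k → ZMod p) → ℂ) : ℂ :=
  (∑ r, g r) / (p : ℂ) ^ k / ((1 - ((p : ℝ) ^ s)⁻¹ : ℝ) : ℂ)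

theorem ExC_reim {k : ℕ} (s p : ℕ) [NeZero p] (g : (Fin k → ZMod p) → ℂ) :
    ExC s p g = ((Ex s p (fun r => (g r).re) : ℝ) : ℂ) + ((Ex s p (fun r => (g r).im) : ℝ) : ℂ) * Complex.I := by
  unfold ExC Ex avg
  have h4 : ∑ r, g r = ((∑ r, (g r).re : ℝ) : ℂ) + ((∑ r, (g r).im : ℝ) : ℂ) * Complex.I := by
    push_cast
    rw [Finset.sum_mul, ← Finset.sum_add_distrib]
    exact Finset.sum_congr rfl fun r _ => (Complex.re_add_im _).symm
  rw [h4]
  push_cast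
  ring

theorem ExC_ofReal {k : ℕ} (s p : ℕ) [NeZero p] (g : (Fin k → ZMod p) → ℝ) :
    ExC s p (fun r => (g r : ℂ)) = ((Ex s p g : ℝ) : ℂ) := by
  unfold ExC Ex avg
  push_cast
  rfl

theorem ExC_add {k : ℕ} (s p : ℕ) [NeZero p] (g h : (Fin k → ZMod p) → ℂ) :
    ExC s p (fun r => g r + h r) = ExC s p g + ExC s p h := by
  unfold ExC
  rw [Finset.sum_add_distrib]
  ring

theorem ExC_mul {k : ℕ} (s p : ℕ) [NeZero p] (c : ℂ) (g : (Fin k → ZMod p) → ℂ) :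
    ExC s p (fun r => c * g r) = c * ExC s p g := by
  unfold ExC
  rw [← Finset.mul_sum]
  ring

theorem ExC_le {k s p : ℕ} [NeZero p] (hs : 1 ≤ s) (hp : 2 ≤ p) {g : (Fin k → ZMod p) → ℂ} {b : ℝ}
    (hg : ∀ r, ‖g r‖ ≤ b) : ‖ExC s p g‖ ≤ 2 * b := by
  have hp2 : (2 : ℝ) ≤ p := by exact_mod_cast hp
  have hb : 0 ≤ b := (norm_nonneg _).trans (hg 0)
  have h1 : ((p : ℝ) ^ s)⁻¹ ≤ 1 / 2 := by
    rw [inv_le_comm₀ (by positivity) (by norm_num)]
    have : (2 : ℝ) ^ 1 ≤ (p : ℝ) ^ s := (pow_le_pow_left₀ (by norm_num) hp2 1).trans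
      (pow_le_pow_right₀ (by linarith) hs)
    linarith
  have hN : (0 : ℝ) < (p : ℝ) ^ k := by positivity
  unfold ExC
  rw [norm_div, Complex.norm_real, Real.norm_of_nonneg (by linarith), div_le_iff₀ (by linarith), norm_div, norm_pow,
    Complex.norm_natCast, div_le_iff₀ hN]
  refine (norm_sum_le _ _).trans ((Finset.sum_le_sum fun r _ => hg r).trans ?_)
  rw [Finset.sum_const, Finset.card_univ, nsmul_eq_mul, Fintype.card_fun, Fintype.card_fin, ZMod.card]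
  push_cast
  have h2 : b ≤ 2 * b * (1 - ((p : ℝ) ^ s)⁻¹) := by nlinarith
  calc (p : ℝ) ^ k * b ≤ (p : ℝ) ^ k * (2 * b * (1 - ((p : ℝ) ^ s)⁻¹)) := by gcongr
    _ = _ := by ring

theorem prod_reim {P : Type} [DecidableEq P] (I : Finset P) (u v : P → ℝ) :
    ∏ p ∈ I, ((u p : ℂ) + (v p : ℂ) * Complex.I) =
      ∑ J ∈ I.powerset, ((∏ p ∈ I, (if p ∈ J then u p else v p) : ℝ) : ℂ) * Complex.I ^ (I \ J).card := by
  rw [Finset.prod_add]
  refine Finset.sum_congr rfl fun J hJ => ?_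
  rw [Finset.mem_powerset] at hJ
  rw [Finset.prod_mul_distrib, Finset.prod_const, ← mul_assoc]
  congr 1
  rw [← Finset.prod_sdiff hJ]
  push_cast
  rw [mul_comm]
  congr 1
  · refine Finset.prod_congr rfl fun p hp => ?_
    rw [if_neg (Finset.mem_sdiff.1 hp).2]
  · refine Finset.prod_congr rfl fun p hp => ?_
    rw [if_pos hp]

variable {k : ℕ} {e : Fin k → ℕ} {a : ℕ → Fin k → ℕ} {Z : (Fin k → ℤ) → Prop}

/-- **independence of complex local functions** -/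
theorem data_manyC (D : Data k e a Z) {g : (p : Nat.Primes) → (Fin k → ZMod p) → ℂ} (hg : ∀ p, g p 0 = 0)
    (I : Finset Nat.Primes) :
    Tendsto (fun X => meanC (Fam e Z (a X)) (fun x => ∏ p ∈ I, g p (red p x))) atTop
      (𝓝 (∏ p ∈ I, ExC (∑ j, e j) (p : ℕ) (g p))) := by
  classical
  set H : Finset Nat.Primes → (p : Nat.Primes) → (Fin k → ZMod p) → ℝ := fun J p r =>
    if p ∈ J then (g p r).re else (g p r).im with hH
  have hH0 : ∀ J p, H J p 0 = 0 := by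
    intro J p
    rw [hH]
    simp only
    rw [hg]
    split_ifs <;> simp
  have h1 : ∀ J, Tendsto (fun X => mean (Fam e Z (a X)) (fun x => ∏ p ∈ I, H J p (red p x))) atTop
      (𝓝 (∏ p ∈ I, Ex (∑ j, e j) (p : ℕ) (H J p))) := fun J => data_many D (hH0 J) I
  have h2 : Tendsto (fun X => ∑ J ∈ I.powerset, ((mean (Fam e Z (a X)) (fun x => ∏ p ∈ I, H J p (red p x)) : ℝ) : ℂ) *
      Complex.I ^ (I \ J).card) atTop (𝓝 (∑ J ∈ I.powerset, ((∏ p ∈ I, Ex (∑ j, e j) (p : ℕ) (H J p) : ℝ) : ℂ) *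
        Complex.I ^ (I \ J).card)) :=
    tendsto_finsetSum _ fun J _ => ((Complex.continuous_ofReal.tendsto _).comp (h1 J)).mul_const _
  have e1 : ∑ J ∈ I.powerset, ((∏ p ∈ I, Ex (∑ j, e j) (p : ℕ) (H J p) : ℝ) : ℂ) * Complex.I ^ (I \ J).card =
      ∏ p ∈ I, ExC (∑ j, e j) (p : ℕ) (g p) := by
    rw [Finset.prod_congr rfl fun (p : Nat.Primes) _ => ExC_reim (∑ j, e j) (p : ℕ) (g p), prod_reim]
    refine Finset.sum_congr rfl fun J _ => ?_
    congr 2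
    refine Finset.prod_congr rfl fun p _ => ?_
    rw [hH]
    simp only
    split_ifs <;> rfl
  rw [e1] at h2
  refine h2.congr fun X => ?_
  unfold meanC mean
  have e2 : ∀ x : Fin k → ℤ, ∏ p ∈ I, g p (red p x) =
      ∑ J ∈ I.powerset, ((∏ p ∈ I, H J p (red p x) : ℝ) : ℂ) * Complex.I ^ (I \ J).card := by
    intro x
    have e3 : ∀ p ∈ I, g p (red p x) = (((g p (red p x)).re : ℝ) : ℂ) + (((g p (red p x)).im : ℝ) : ℂ) * Complex.I :=
      fun p _ => (Complex.re_add_im _).symm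
    rw [Finset.prod_congr rfl e3, prod_reim]
  simp only [e2]
  rw [Finset.sum_comm, Finset.sum_div]
  refine Finset.sum_congr rfl fun J _ => ?_
  rw [← Finset.sum_mul]
  push_cast
  ring

/-- the local factor -/
noncomputable def LD (s : ℕ) (Y : (p : Nat.Primes) → (Fin k → ZMod p) → ℝ) (p : Nat.Primes) (z : ℂ) : ℂ :=
  1 + ExC s (p : ℕ) (fun r => Complex.exp (z * Y p r) - 1)

theorem LD_real (s : ℕ) (Y : (p : Nat.Primes) → (Fin k → ZMod p) → ℝ) (p : Nat.Primes) (x : ℝ) :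
    LD s Y p (x : ℂ) = ((ph s Y p x : ℝ) : ℂ) := by
  unfold LD ph
  rw [Complex.ofReal_add, ← ExC_ofReal]
  push_cast
  rfl

/-- **the systems of local functions over boxes** -/
theorem loc_data (D : Data k e a Z) {Y : (p : Nat.Primes) → (Fin k → ZMod p) → ℝ} (hY0 : ∀ p, Y p 0 = 0) {B : ℝ}
    (hB : 0 ≤ B) (hY : ∀ p r, |Y p r| ≤ B / √((p : ℕ) : ℝ)) {κ v C : ℝ} (hC : 0 ≤ C)
    (h1 : ∀ p : Nat.Primes, |Ex (∑ j, e j) (p : ℕ) (Y p) - κ / (p : ℕ)| ≤ C / (√((p : ℕ) : ℝ) * (p : ℕ)))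
    (h2 : ∀ p : Nat.Primes, |Ex (∑ j, e j) (p : ℕ) (fun r => Y p r ^ 2) - v / (p : ℕ)| ≤ C / (√((p : ℕ) : ℝ) * (p : ℕ))) :
    Loc (fun X => Fam e Z (a X)) (fun p x => Y p (red p x)) (LD (∑ j, e j) Y) (fun p => κ * (((p : ℕ) : ℝ))⁻¹)
      (fun p => v / 2 * (((p : ℕ) : ℝ))⁻¹) B := by
  have hs1 : 1 ≤ ∑ j, e j := by
    have h0 := D.hk
    have h1 := D.he ⟨0, h0⟩
    have h2 : e ⟨0, h0⟩ ≤ ∑ j, e j := Finset.single_le_sum (fun _ _ => Nat.zero_le _) (mem_univ _)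
    omega
  refine ⟨fam_ne D, hB, fun p X x _ => hY p _, fun p => ?_, fun z I => ?_, fun K => ?_, ?_⟩
  · unfold LD ExC
    fun_prop
  · have h3 := data_manyC D (g := fun p r => Complex.exp (z p * Y p r) - 1) (fun p => by
      show Complex.exp (z p * ((Y p 0 : ℝ) : ℂ)) - 1 = 0
      rw [hY0]
      simp) I
    have e1 : ∏ p ∈ I, ExC (∑ j, e j) (p : ℕ) (fun r => Complex.exp (z p * Y p r) - 1) =
        ∏ p ∈ I, (LD (∑ j, e j) Y p (z p) - 1) := by
      refine Finset.prod_congr rfl fun p _ => ?_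
      unfold LD
      ring
    rw [e1] at h3
    exact h3
  · rcases lt_or_ge K 0 with hK | hK
    · exact ⟨0, le_rfl, fun p z hz => absurd ((norm_nonneg z).trans hz) (not_le.2 hK)⟩
    set E : ℝ := Real.exp (K * B) with hE
    refine ⟨K * C + K ^ 2 * C + 2 * (K ^ 3 * B ^ 3 * E), by positivity, fun p z hz => ?_⟩
    have hp0 : (0 : ℝ) < (p : ℕ) := by exact_mod_cast p.2.pos
    obtain ⟨d0, d1, d2⟩ := de_facts p
    set δ : ℝ := (√((p : ℕ) : ℝ))⁻¹ with hδ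
    have hδ3 : ∀ c : ℝ, c / (√((p : ℕ) : ℝ) * (p : ℕ)) = c * δ ^ 3 := by
      intro c
      have : δ ^ 3 = δ * δ ^ 2 := by ring
      rw [this, d2, hδ]
      field_simp
    have hz0 := norm_nonneg z
    -- the remainder
    have hrem : ∀ r, ‖Complex.exp (z * Y p r) - 1 - z * Y p r - (z * Y p r) ^ 2 / 2‖ ≤ K ^ 3 * B ^ 3 * E * δ ^ 3 := by
      intro r
      have g1 : ‖z * (Y p r : ℂ)‖ ≤ K * (B * δ) := by
        rw [norm_mul, Complex.norm_real, Real.norm_eq_abs]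
        have := hY p r
        rw [div_eq_mul_inv] at this
        exact mul_le_mul hz this (abs_nonneg _) hK
      have g2 : ‖z * (Y p r : ℂ)‖ ≤ K * B := g1.trans (by
        apply mul_le_mul_of_nonneg_left _ hK
        nlinarith)
      have g3 := Complex.norm_exp_sub_sum_le_norm_mul_exp (z * (Y p r : ℂ)) 3
      have e2 : Complex.exp (z * (Y p r : ℂ)) - ∑ m ∈ range 3, (z * (Y p r : ℂ)) ^ m / (m.factorial : ℂ) =
          Complex.exp (z * Y p r) - 1 - z * Y p r - (z * Y p r) ^ 2 / 2 := by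
        simp only [Finset.sum_range_succ, Finset.sum_range_zero, Nat.factorial]
        push_cast
        ring
      rw [e2] at g3
      refine g3.trans ?_
      calc ‖z * (Y p r : ℂ)‖ ^ 3 * Real.exp ‖z * (Y p r : ℂ)‖ ≤ (K * (B * δ)) ^ 3 * E := by
            gcongr
            exact Real.exp_le_exp.2 g2
        _ = _ := by ring
    have e1 : LD (∑ j, e j) Y p z - 1 - (((κ * (((p : ℕ) : ℝ))⁻¹ : ℝ) : ℂ) * z + ((v / 2 * (((p : ℕ) : ℝ))⁻¹ : ℝ) : ℂ) * z ^ 2) =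
        z * ((Ex (∑ j, e j) (p : ℕ) (Y p) - κ / (p : ℕ) : ℝ) : ℂ) +
        z ^ 2 / 2 * ((Ex (∑ j, e j) (p : ℕ) (fun r => Y p r ^ 2) - v / (p : ℕ) : ℝ) : ℂ) +
        ExC (∑ j, e j) (p : ℕ) (fun r => Complex.exp (z * Y p r) - 1 - z * Y p r - (z * Y p r) ^ 2 / 2) := by
      have e3 : ExC (∑ j, e j) (p : ℕ) (fun r => Complex.exp (z * Y p r) - 1) =
          z * ((Ex (∑ j, e j) (p : ℕ) (Y p) : ℝ) : ℂ) + z ^ 2 / 2 * ((Ex (∑ j, e j) (p : ℕ) (fun r => Y p r ^ 2) : ℝ) : ℂ) +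
          ExC (∑ j, e j) (p : ℕ) (fun r => Complex.exp (z * Y p r) - 1 - z * Y p r - (z * Y p r) ^ 2 / 2) := by
        rw [← ExC_ofReal, ← ExC_ofReal, ← ExC_mul, ← ExC_mul, ← ExC_add, ← ExC_add]
        congr 1
        funext r
        push_cast
        ring
      unfold LD
      rw [add_sub_cancel_left, e3]
      push_cast
      ring
    rw [e1]
    have g1 := h1 p
    have g2 := h2 p
    rw [hδ3] at g1 g2
    have g3 := ExC_le (k := k) hs1 p.2.two_le hrem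
    refine (norm_add_le _ _).trans ((add_le_add ((norm_add_le _ _).trans (le_refl _)) g3).trans ?_)
    rw [norm_mul, norm_mul, Complex.norm_real, Complex.norm_real, Real.norm_eq_abs, Real.norm_eq_abs, norm_div, norm_pow]
    have h22 : ‖(2 : ℂ)‖ = 2 := by simp
    rw [h22]
    have g4 : ‖z‖ * |Ex (∑ j, e j) (p : ℕ) (Y p) - κ / (p : ℕ)| ≤ K * (C * δ ^ 3) :=
      mul_le_mul hz g1 (abs_nonneg _) hK
    have hz2 : ‖z‖ ^ 2 ≤ K ^ 2 := pow_le_pow_left₀ hz0 hz 2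
    have g5 : ‖z‖ ^ 2 / 2 * |Ex (∑ j, e j) (p : ℕ) (fun r => Y p r ^ 2) - v / (p : ℕ)| ≤ K ^ 2 * (C * δ ^ 3) :=
      mul_le_mul (by nlinarith [sq_nonneg K]) g2 (abs_nonneg _) (by positivity)
    nlinarith
  · refine ⟨|κ| + |v|, by positivity, fun p => ?_⟩
    obtain ⟨d0, d1, d2⟩ := de_facts p
    have hp0 : (0 : ℝ) < (p : ℕ) := by exact_mod_cast p.2.pos
    rw [d2, one_div]
    have h3 : 0 ≤ (((p : ℕ) : ℝ))⁻¹ := by positivity
    constructor
    · rw [abs_mul, abs_of_nonneg h3]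
      gcongr
      linarith [abs_nonneg v]
    · rw [abs_mul, abs_of_nonneg h3, abs_div, abs_of_pos (by norm_num : (0 : ℝ) < 2)]
      gcongr
      linarith [abs_nonneg v, abs_nonneg κ]

/-- the sums of the coefficients -/
theorem wts_data (γ κ v : ℝ) : ∃ c₁ c₂ : ℝ, Wts (fun p => κ * (((p : ℕ) : ℝ))⁻¹) (fun p => v / 2 * (((p : ℕ) : ℝ))⁻¹) γ κ (v / 2) c₁ c₂ := by
  obtain ⟨s1, c₁, hc₁⟩ := kar_one γ
  obtain ⟨s2, c₂, hc₂⟩ := kar_two γ
  refine ⟨κ * c₁, v / 2 * c₂, fun T hT => ?_, fun T hT => ?_, ?_, ?_⟩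
  · exact ((s1 T hT).mul_left κ).congr fun p => by ring
  · exact ((s2 T hT).mul_left (v / 2)).congr fun p => by ring
  · refine (hc₁.const_mul κ).congr fun T => ?_
    rw [mul_sub, ← tsum_mul_left]
    congr 1
    exact tsum_congr fun p => by ring
  · refine (hc₂.const_mul (v / 2)).congr fun T => ?_
    rw [mul_sub, ← tsum_mul_left]
    congr 1
    exact tsum_congr fun p => by ring

end Pool.Agent.KS6_59.ELD
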