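import Pool.Agent.KS6_59.ELD.Asy
import Pool.Graph.R_pool_sql_team_seeded_63374d34.N748.MG.LLT

/-!
# Exact large deviations of weighted sums of independent local functions
-/

set_option autoImplicit false

namespace Pool.Agent.KS6_59.ELD

open Filter Topology Finset MeasureTheory
open Pool.Agent.X278.AV Pool.Agent.X278.OP Pool.Agent.N397.AV

variable {ι : Type} {F : ℕ → Finset ι} {f : Nat.Primes → ι → ℝ} {L : Nat.Primes → ℂ → ℂ} {α β : Nat.Primes → ℝ} {B : ℝ}

/-- the tilted empirical measure -/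
noncomputable def nu (G : Finset ι) (Y : ι → ℝ) (k c : ℝ) : Measure ℝ :=
  ∑ i ∈ G, ENNReal.ofReal (c / G.card * Real.exp (k * Y i)) • Measure.dirac (Y i)

instance (G : Finset ι) (Y : ι → ℝ) (k c : ℝ) : IsFiniteMeasure (nu G Y k c) := by
  classical
  constructor
  unfold nu
  rw [Measure.finsetSum_apply]
  refine ENNReal.sum_lt_top.2 fun i _ => ?_
  rw [Measure.smul_apply, smul_eq_mul]
  exact ENNReal.mul_lt_top ENNReal.ofReal_lt_top (measure_lt_top _ _)

theorem nu_int {E : Type} [NormedAddCommGroup E] [NormedSpace ℝ E] [CompleteSpace E] (G : Finset ι) (Y : ι → ℝ) (k : ℝ) {c : ℝ}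
    (hc : 0 ≤ c) (h : ℝ → E) :
    ∫ x, h x ∂(nu G Y k c) = ∑ i ∈ G, (c / G.card * Real.exp (k * Y i)) • h (Y i) := by
  unfold nu
  rw [integral_finsetSum_measure]
  · refine Finset.sum_congr rfl fun i _ => ?_
    rw [integral_smul_measure, integral_dirac, ENNReal.toReal_ofReal (by positivity)]
  · intro i _
    refine Integrable.smul_measure ?_ ENNReal.ofReal_ne_top
    exact integrable_dirac enorm_lt_top

variable {γ A Q c₁ c₂ : ℝ}

/-- the centred sum -/
noncomputable def Yc (f : Nat.Primes → ι → ℝ) (γ s T : ℝ) (i : ι) : ℝ := Sm f γ T i - s * Real.log T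

/-- the characteristic function of the tilted empirical measure -/
theorem nu_char (G : Finset ι) (k s : ℝ) {c : ℝ} (hc : 0 ≤ c) (T ξ : ℝ) :
    ∫ x, Complex.exp (ξ * x * Complex.I) ∂(nu G (Yc f γ s T) k c) =
      (c * Complex.exp (-((k + ξ * Complex.I) * (s * Real.log T)))) *
        meanC G (fun i => Complex.exp ((k + ξ * Complex.I) * Sm f γ T i)) := by
  rw [nu_int G _ k hc]
  unfold meanC
  rw [mul_div_assoc', Finset.mul_sum, Finset.sum_div]
  refine Finset.sum_congr rfl fun i _ => ?_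
  rw [Complex.real_smul]
  unfold Yc
  push_cast
  rw [mul_assoc ((c : ℂ) / _), ← Complex.exp_add, mul_assoc (c : ℂ), ← Complex.exp_add, mul_comm_div, mul_div_assoc']
  congr 3
  ring

/-- a threshold for the size of the family -/
theorem exists_thr (D : Loc F f L α β B) (γ k : ℝ) (δ : ℝ → ℝ) (hδ : ∀ T, 0 < T → 0 < δ T) :
    ∃ X₀ : ℝ → ℕ, ∀ T : ℝ, 0 < T → ∀ X : ℕ, X₀ T ≤ X → ∀ ξ : ℝ, |ξ| ≤ T →
      ‖meanC (F X) (fun i => Complex.exp ((k + ξ * Complex.I) * Sm f γ T i)) - Mz L γ T (k + ξ * Complex.I)‖ ≤ δ T := by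
  classical
  have h1 : ∀ T : ℝ, ∃ X₀ : ℕ, 0 < T → ∀ X : ℕ, X₀ ≤ X → ∀ ξ : ℝ, |ξ| ≤ T →
      ‖meanC (F X) (fun i => Complex.exp ((k + ξ * Complex.I) * Sm f γ T i)) - Mz L γ T (k + ξ * Complex.I)‖ ≤ δ T := by
    intro T
    by_cases hT : 0 < T
    · obtain ⟨X₀, h⟩ := eventually_atTop.1 (fixed_unif D γ hT k T (hδ T hT))
      exact ⟨X₀, fun _ X hX => h X hX⟩
    · exact ⟨0, fun h => absurd h hT⟩
  choose X₀ h using h1
  exact ⟨X₀, fun T hT X hX => h T hT X hX⟩

/-- **exact large deviations, for a choice of the sizes** -/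
theorem choice_lim (D : Loc F f L α β B) (W : Wts α β γ A Q c₁ c₂) (hQ : 0 < Q) {k g₀ : ℝ} (hg₀ : 0 < g₀)
    (hG : Gf L α β c₁ c₂ (k : ℂ) = g₀) :
    ∃ X₀ : ℝ → ℕ, ∀ X : ℝ → ℕ, (∀ T, X₀ T ≤ X T) → ∀ (h : ℝ → ℝ) (S : Finset ℝ), Measurable h →
      (∀ x, x ∉ S → ContinuousAt h x) → (∃ C : ℝ, ∀ x, |h x| * (1 + x ^ 2) ≤ C) →
      Tendsto (fun T => Real.sqrt (Real.pi * (4 * Q * Real.log T)) *
        ∫ x, h x ∂(nu (F (X T)) (Yc f γ (A + 2 * Q * k) T) k (Real.exp (Q * k ^ 2 * Real.log T) / g₀))) atTop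
          (𝓝 (∫ x, h x)) := by
  set s : ℝ := A + 2 * Q * k with hs
  set c : ℝ → ℝ := fun T => Real.exp (Q * k ^ 2 * Real.log T) / g₀ with hc
  have hc0 : ∀ T, 0 < c T := fun T => div_pos (Real.exp_pos _) hg₀
  set δ : ℝ → ℝ := fun T => (c T)⁻¹ * Real.exp (k * (s * Real.log T)) * (T⁻¹ * Real.exp (-(T ^ 2 * (Q * Real.log T)))) with hδ
  obtain ⟨X₀, hX₀⟩ := exists_thr D γ k δ (fun T hT => by
    have := hc0 T
    positivity)
  refine ⟨X₀, fun X hX => ?_⟩
  have hLLT := Pool.Agent.N748.MG.LLT.main (fun T => nu (F (X T)) (Yc f γ s T) k (c T)) (fun T => 4 * Q * Real.log T)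
    (fun ξ => Gf L α β c₁ c₂ (k + ξ * Complex.I) / g₀) (Eventually.of_forall fun T => inferInstance)
    (Real.tendsto_log_atTop.const_mul_atTop (by positivity)) ?_ ?_ ?_
  · intro h S hm hcn hb
    exact hLLT h S hm hcn hb
  · exact ((Gf_cont D c₁ c₂).comp (by fun_prop)).div_const _
  · rw [Complex.ofReal_zero, zero_mul, add_zero, hG, div_self]
    exact_mod_cast hg₀.ne'
  · intro R hR ε hε
    have h1 := asym_unif D W k R (ε := ε / 2 * g₀) (by positivity)
    filter_upwards [h1, eventually_ge_atTop R, eventually_gt_atTop (1 : ℝ), eventually_ge_atTop (2 / ε)] with T h2 h3 h4 h5 ξ hξ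
    have hT0 : 0 < T := by linarith
    have hl : 0 < Real.log T := Real.log_pos h4
    have h6 := hX₀ T hT0 (X T) (hX T) ξ (hξ.trans h3)
    have h7 := h2 ξ hξ
    rw [nu_char _ _ _ (hc0 T).le]
    have hΛ : ξ ^ 2 * (4 * Q * Real.log T) / 4 = ξ ^ 2 * (Q * Real.log T) := by ring
    rw [hΛ]
    set z : ℂ := (k : ℂ) + ξ * Complex.I with hz
    set e0 : ℂ := c T * Complex.exp (-(z * (s * Real.log T))) with he0
    set Ga : ℝ := Real.exp (-(ξ ^ 2 * (Q * Real.log T))) with hGa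
    have hGa0 : 0 < Ga := Real.exp_pos _
    -- the norm of the factor
    have hne : ‖e0‖ = c T * Real.exp (-(k * (s * Real.log T))) := by
      rw [he0, norm_mul, Complex.norm_real, Real.norm_of_nonneg (hc0 T).le, Complex.norm_exp]
      congr 2
      rw [hz]
      simp only [Complex.neg_re, Complex.mul_re, Complex.add_re, Complex.ofReal_re, Complex.I_re, Complex.ofReal_im,
        Complex.I_im, Complex.mul_im, Complex.add_im]
      ring
    have hfac : e0 = (Ga / g₀ : ℝ) * Complex.exp (-((A * z + Q * z ^ 2) * Real.log T)) := by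
      rw [he0, hc, hGa]
      push_cast
      rw [div_mul_eq_mul_div, div_mul_eq_mul_div, ← Complex.exp_add, ← Complex.exp_add]
      congr 2
      rw [hz, hs]
      push_cast
      ring_nf
      rw [Complex.I_sq]
      ring
    have e1 : e0 * meanC (F (X T)) (fun i => Complex.exp (z * Sm f γ T i)) - Gf L α β c₁ c₂ z / g₀ * (Ga : ℂ) =
        e0 * (meanC (F (X T)) (fun i => Complex.exp (z * Sm f γ T i)) - Mz L γ T z) +
          (Ga / g₀ : ℝ) * (Mz L γ T z * Complex.exp (-((A * z + Q * z ^ 2) * Real.log T)) - Gf L α β c₁ c₂ z) := by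
      have e2 : e0 * Mz L γ T z = (Ga / g₀ : ℝ) * (Mz L γ T z * Complex.exp (-((A * z + Q * z ^ 2) * Real.log T))) := by
        rw [hfac]
        ring
      have e3 : (Gf L α β c₁ c₂ z / g₀ * (Ga : ℂ)) = (Ga / g₀ : ℝ) * Gf L α β c₁ c₂ z := by
        push_cast
        ring
      rw [mul_sub, mul_sub, e2, e3]
      ring
    have hA1 : ‖e0 * (meanC (F (X T)) (fun i => Complex.exp (z * Sm f γ T i)) - Mz L γ T z)‖ ≤ ε / 2 * Ga := by
      rw [norm_mul, hne]
      have g1 : c T * Real.exp (-(k * (s * Real.log T))) * δ T = T⁻¹ * Real.exp (-(T ^ 2 * (Q * Real.log T))) := by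
        have g2 : Real.exp (-(k * (s * Real.log T))) * Real.exp (k * (s * Real.log T)) = 1 := by
          rw [← Real.exp_add, neg_add_cancel, Real.exp_zero]
        rw [hδ]
        simp only
        calc _ = (c T * (c T)⁻¹) * (Real.exp (-(k * (s * Real.log T))) * Real.exp (k * (s * Real.log T))) *
              (T⁻¹ * Real.exp (-(T ^ 2 * (Q * Real.log T)))) := by ring
          _ = _ := by rw [g2, mul_inv_cancel₀ (hc0 T).ne', one_mul, one_mul]
      have g3 : 0 ≤ c T * Real.exp (-(k * (s * Real.log T))) := by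
        have := hc0 T
        positivity
      refine (mul_le_mul_of_nonneg_left h6 g3).trans ?_
      rw [g1]
      have g4 : T⁻¹ ≤ ε / 2 := by
        rw [inv_le_comm₀ hT0 (by positivity), inv_div]
        exact h5
      have g5 : Real.exp (-(T ^ 2 * (Q * Real.log T))) ≤ Ga := by
        rw [hGa]
        apply Real.exp_le_exp.2
        have g6 : ξ ^ 2 ≤ T ^ 2 := by
          rw [← sq_abs ξ]
          exact pow_le_pow_left₀ (abs_nonneg _) (hξ.trans h3) 2
        have g7 : 0 ≤ Q * Real.log T := by positivity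
        nlinarith
      exact mul_le_mul g4 g5 (Real.exp_pos _).le (by positivity)
    have hA2 : ‖((Ga / g₀ : ℝ) : ℂ) * (Mz L γ T z * Complex.exp (-((A * z + Q * z ^ 2) * Real.log T)) -
        Gf L α β c₁ c₂ z)‖ ≤ ε / 2 * Ga := by
      rw [norm_mul, Complex.norm_real, Real.norm_of_nonneg (by positivity)]
      calc Ga / g₀ * ‖Mz L γ T z * Complex.exp (-((A * z + Q * z ^ 2) * Real.log T)) - Gf L α β c₁ c₂ z‖
          ≤ Ga / g₀ * (ε / 2 * g₀) := by gcongr
        _ = ε / 2 * Ga := by field_simp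
    rw [e1]
    refine (norm_add_le _ _).trans ((add_le_add hA1 hA2).trans (le_of_eq ?_))
    ring

/-- **exact large deviations**: first the family tends to infinity, then `T` -/
theorem main (D : Loc F f L α β B) (W : Wts α β γ A Q c₁ c₂) (hQ : 0 < Q) {k g₀ : ℝ} (hg₀ : 0 < g₀)
    (hG : Gf L α β c₁ c₂ (k : ℂ) = g₀) (h : ℝ → ℝ) (S : Finset ℝ) (hm : Measurable h)
    (hcn : ∀ x, x ∉ S → ContinuousAt h x) (hb : ∃ C : ℝ, ∀ x, |h x| * (1 + x ^ 2) ≤ C) {ε : ℝ} (hε : 0 < ε) :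
    ∀ᶠ T : ℝ in atTop, ∀ᶠ X : ℕ in atTop,
      |Real.sqrt (4 * Real.pi * Q * Real.log T) * (Real.exp (Q * k ^ 2 * Real.log T) *
        ((∑ i ∈ F X, Real.exp (k * Yc f γ (A + 2 * Q * k) T i) * h (Yc f γ (A + 2 * Q * k) T i)) / (F X).card)) -
          g₀ * ∫ x, h x| ≤ ε := by
  classical
  obtain ⟨X₀, hX₀⟩ := choice_lim D W hQ hg₀ hG
  set Φ : ℝ → ℕ → ℝ := fun T X => Real.sqrt (Real.pi * (4 * Q * Real.log T)) *
        ∫ x, h x ∂(nu (F X) (Yc f γ (A + 2 * Q * k) T) k (Real.exp (Q * k ^ 2 * Real.log T) / g₀)) with hΦ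
  have key : ∀ᶠ T : ℝ in atTop, ∀ X : ℕ, X₀ T ≤ X → |Φ T X - ∫ x, h x| ≤ ε / g₀ := by
    -- choose a bad size, if there is one
    set X : ℝ → ℕ := fun T => if hb : ∃ X : ℕ, X₀ T ≤ X ∧ ε / g₀ < |Φ T X - ∫ x, h x| then hb.choose else X₀ T with hX
    have hX1 : ∀ T, X₀ T ≤ X T := by
      intro T
      rw [hX]
      simp only
      split_ifs with hb
      · exact hb.choose_spec.1
      · exact le_rfl
    have h1 := hX₀ X hX1 h S hm hcn hb
    have h2 := Metric.tendsto_nhds.1 h1 (ε / g₀) (by positivity)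
    filter_upwards [h2] with T h3 X' hX'
    by_contra h4
    push Not at h4
    have hbad : ∃ X : ℕ, X₀ T ≤ X ∧ ε / g₀ < |Φ T X - ∫ x, h x| := ⟨X', hX', h4⟩
    have h5 : X T = hbad.choose := by
      rw [hX]
      simp only
      rw [dif_pos hbad]
    have h6 := hbad.choose_spec.2
    rw [← h5] at h6
    rw [Real.dist_eq] at h3
    exact absurd h3 (not_lt.2 h6.le)
  filter_upwards [key] with T hT
  filter_upwards [eventually_ge_atTop (X₀ T)] with X hX
  have h1 := hT X hX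
  have e1 : Real.sqrt (4 * Real.pi * Q * Real.log T) * (Real.exp (Q * k ^ 2 * Real.log T) *
        ((∑ i ∈ F X, Real.exp (k * Yc f γ (A + 2 * Q * k) T i) * h (Yc f γ (A + 2 * Q * k) T i)) / (F X).card)) =
      g₀ * Φ T X := by
    rw [hΦ]
    simp only
    rw [nu_int _ _ _ (div_nonneg (Real.exp_pos _).le hg₀.le)]
    have e2 : Real.pi * (4 * Q * Real.log T) = 4 * Real.pi * Q * Real.log T := by ring
    rw [e2]
    have e3 : ∑ i ∈ F X, (Real.exp (Q * k ^ 2 * Real.log T) / g₀ / ((F X).card : ℝ) *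
        Real.exp (k * Yc f γ (A + 2 * Q * k) T i)) • h (Yc f γ (A + 2 * Q * k) T i) =
        Real.exp (Q * k ^ 2 * Real.log T) / g₀ *
        ((∑ i ∈ F X, Real.exp (k * Yc f γ (A + 2 * Q * k) T i) * h (Yc f γ (A + 2 * Q * k) T i)) / (F X).card) := by
      rw [Finset.sum_div, Finset.mul_sum]
      refine Finset.sum_congr rfl fun i _ => ?_
      rw [smul_eq_mul]
      ring
    rw [e3]
    field_simp
  rw [e1, ← mul_sub, abs_mul, abs_of_pos hg₀]
  calc g₀ * |Φ T X - ∫ x, h x| ≤ g₀ * (ε / g₀) := by gcongr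
    _ = ε := by field_simp

open Classical in
/-- **exact large deviations for sets** -/
theorem main_set (D : Loc F f L α β B) (W : Wts α β γ A Q c₁ c₂) (hQ : 0 < Q) {k g₀ : ℝ} (hg₀ : 0 < g₀)
    (hG : Gf L α β c₁ c₂ (k : ℂ) = g₀) (U : Set ℝ) (S : Finset ℝ) (hU : MeasurableSet U)
    (hS : ∀ x, x ∉ S → ContinuousAt (U.indicator fun x => Real.exp (-(k * x))) x)
    (hb : ∃ C : ℝ, ∀ x ∈ U, Real.exp (-(k * x)) * (1 + x ^ 2) ≤ C) {ε : ℝ} (hε : 0 < ε) :
    ∀ᶠ T : ℝ in atTop, ∀ᶠ X : ℕ in atTop,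
      |Real.sqrt (4 * Real.pi * Q * Real.log T) * (Real.exp (Q * k ^ 2 * Real.log T) *
        ((((F X).filter fun i => Yc f γ (A + 2 * Q * k) T i ∈ U).card : ℝ) / (F X).card)) -
          g₀ * ∫ x in U, Real.exp (-(k * x))| ≤ ε := by
  obtain ⟨C, hC⟩ := hb
  have h1 := main D W hQ hg₀ hG (U.indicator fun x => Real.exp (-(k * x))) S
    (Measurable.indicator (by fun_prop) hU) hS ⟨max C 0, fun x => ?_⟩ hε
  · filter_upwards [h1] with T h2
    filter_upwards [h2] with X h3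
    rw [integral_indicator hU] at h3
    have e1 : ∑ i ∈ F X, Real.exp (k * Yc f γ (A + 2 * Q * k) T i) *
        (U.indicator fun x => Real.exp (-(k * x))) (Yc f γ (A + 2 * Q * k) T i) =
        (((F X).filter fun i => Yc f γ (A + 2 * Q * k) T i ∈ U).card : ℝ) := by
      rw [Finset.card_filter, Nat.cast_sum]
      refine Finset.sum_congr rfl fun i _ => ?_
      by_cases hi : Yc f γ (A + 2 * Q * k) T i ∈ U
      · rw [Set.indicator_of_mem hi, if_pos hi, ← Real.exp_add, add_neg_cancel, Real.exp_zero, Nat.cast_one]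
      · rw [Set.indicator_of_notMem hi, if_neg hi, mul_zero, Nat.cast_zero]
    rw [e1] at h3
    exact h3
  · by_cases hx : x ∈ U
    · rw [Set.indicator_of_mem hx, abs_of_pos (Real.exp_pos _)]
      exact (hC x hx).trans (le_max_left _ _)
    · rw [Set.indicator_of_notMem hx, abs_zero, zero_mul]
      exact le_max_right _ _

end Pool.Agent.KS6_59.ELD
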